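import Pool.Agent.Helper58.LC.Def

/-!
# Statements of the parts of LC (swarm)
-/

set_option autoImplicit false
set_option linter.unusedSectionVars false

open Polynomial Finset DirectSum

namespace Pool.Agent.Helper58.LC.Spec

open Pool.Agent.Helper766_CF Pool.Agent.Helper766_CG Pool.Agent.Helper766_CH
open Pool.Agent.Helper58.CS Pool.Agent.Helper58.OP Pool.Agent.Helper58.SH Pool.Agent.Helper58.BG
open Pool.Agent.Helper58.LC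

variable {R : Type} [CommRing R] [Algebra ℂ R] {𝒜 : ℕ → Submodule ℂ R} [GradedAlgebra 𝒜]
  {br : R →ₗ[ℂ] R →ₗ[ℂ] R}

section A

variable {T : Type} [CommRing T] [Algebra ℂ T]

/-- A1 -/
theorem exists_hv (C : Core 𝒜 br) {x : R →ₐ[ℂ] T} (hx : EN 𝒜 x) (δ : R →ₗ[ℂ] T)
    (hδ : IsDer x δ) : ∃ L, ∀ r, δ r = hv br x L r := sorry

/-- A2 -/
theorem tv_zero (C : Core 𝒜 br) {x : R →ₐ[ℂ] T} (hx : EN 𝒜 x) {L : List (R × T)}
    (hL : ∀ r, hv br x L r = 0) : tv 𝒜 x L = 0 := sorry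

/-- A4 -/
theorem th_scale (C : Core 𝒜 br) {x x' : R →ₐ[ℂ] T} (hx : EN 𝒜 x) {c c' : T} (hcc : c * c' = 1)
    (hx' : ∀ k, ∀ a ∈ 𝒜 k, x' a = c ^ k * x a) (d : Derivation ℂ T T) {v : T}
    (h : Th 𝒜 br x (fun r => d (x r)) v) : Th 𝒜 br x' (fun r => d (x' r)) (c * v) := sorry

/-- A5 -/
theorem closed (C : Core 𝒜 br) {x : R →ₐ[ℂ] T} (hx : EN 𝒜 x) (d₁ d₂ : Derivation ℂ T T)
    (hc : ∀ r, d₁ (d₂ (x r)) = d₂ (d₁ (x r))) {L₁ L₂ : List (R × T)}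
    (h₁ : ∀ r, d₁ (x r) = hv br x L₁ r) (h₂ : ∀ r, d₂ (x r) = hv br x L₂ r) :
    d₁ (tv 𝒜 x L₂) - d₂ (tv 𝒜 x L₁) = (L₂.map fun q => q.2 * d₁ (x q.1)).sum := sorry

end A

section B

variable {K : Type} [Field K] [Algebra ℂ K]

/-- B1 -/
theorem exists_cder (D : Derivation ℂ K K) :
    ∃ D' : Derivation ℂ K[X] K[X], ∀ p i, (D' p).coeff i = D (p.coeff i) := sorry

/-- B2 -/
theorem exists_speed (C : Core 𝒜 br) (c : Cu 𝒜 K 2) : ∃ l, Speed br c l := sorry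

/-- B3 -/
theorem chart_coeff (C : Core 𝒜 br) (c : Cu 𝒜 K 2) {D : Derivation ℂ K K}
    {D' : Derivation ℂ K[X] K[X]} (hD : ∀ p i, (D' p).coeff i = D (p.coeff i)) {u w : K[X]}
    (hf : Th 𝒜 br c.f (fun r => D' (c.f r)) u) (hg : Th 𝒜 br c.g (fun r => D' (c.g r)) w) :
    u.coeff 1 = w.coeff 1 := sorry

/-- B4. First variation. -/
theorem first_var (C : Core 𝒜 br) (c : Cu 𝒜 K 2) {l : K} (hl : Speed br c l)
    (D : Derivation ℂ K K) (h0 : ∀ r, D ((c.f r).coeff 0) = 0) (L : List (R × K))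
    (hL : ∀ r, (c.g r).coeff 1 = hv br c.p1 L r) :
    2 * D l = -(L.map fun q => q.2 * D ((c.g q.1).coeff 0)).sum := sorry

end B

section N

variable {K : Type} [Field K] [Algebra ℂ K]

/-- N1. Slopes are integers. -/
theorem slope (C : Core 𝒜 br) (hfree : Free 𝒜) (V : ValuationSubring K)
    (hV : ∀ c : ℂ, algebraMap ℂ K c ∈ V) (φ : R →ₐ[ℂ] K[X]) (hφ : ∀ r i, (φ r).coeff i ∈ V)
    (h1 : ∃ r i, 0 < i ∧ V.valuation ((φ r).coeff i) = 1) :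
    ∃ k, 0 < k ∧ ∃ a ∈ 𝒜 k, ∃ i, k ≤ i ∧ V.valuation ((φ a).coeff i) = 1 := sorry

/-- N2a -/
theorem exists_maxN [IsAlgClosed K] (C : Core 𝒜 br) (V : ValuationSubring K)
    (hV : ∀ c : ℂ, algebraMap ℂ K c ∈ V) (φ : R →ₐ[ℂ] K[X]) :
    ∃ N : K, 1 ≤ V.valuation N ∧
      (∀ k, ∀ a ∈ 𝒜 k, ∀ i, V.valuation ((φ a).coeff i) ≤ V.valuation N ^ k) ∧
      (N = 1 ∨ ∃ k, 0 < k ∧ ∃ a ∈ 𝒜 k, ∃ i, (φ a).coeff i = N ^ k) := sorry

/-- N2b -/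
theorem exists_maxu [IsAlgClosed K] (C : Core 𝒜 br) (V : ValuationSubring K)
    (hV : ∀ c : ℂ, algebraMap ℂ K c ∈ V) (φ : R →ₐ[ℂ] K[X]) (h0 : ∀ r, (φ r).coeff 0 ∈ V) :
    ∃ u : K, 1 ≤ V.valuation u ∧ (∀ r i, V.valuation ((φ r).coeff i) ≤ V.valuation u ^ i) ∧
      (u = 1 ∨ ∃ r i, 0 < i ∧ (φ r).coeff i = u ^ i) := sorry

/-- N3 -/
theorem bounds [IsAlgClosed K] (C : Core 𝒜 br) (hfree : Free 𝒜) (V : ValuationSubring K)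
    (hV : ∀ c : ℂ, algebraMap ℂ K c ∈ V) (c : Cu 𝒜 K 2)
    (hz : NZ 𝒜 V fun r => (c.f r).coeff 0) (hy : NZ 𝒜 V fun r => (c.g r).coeff 0) :
    ∃ N : K, 1 ≤ V.valuation N ∧ (∀ r i, V.valuation ((c.f r).coeff i) ≤ V.valuation N ^ i) ∧
      (∀ r i, V.valuation ((c.g r).coeff i) ≤ V.valuation N ^ i) ∧
      (V.valuation N = 1 ∨ ∃ k, 0 < k ∧ ∃ a ∈ 𝒜 k,
        V.valuation ((c.f a).coeff k) = V.valuation N ^ k) := sorry

/-- N4. The residue estimate. -/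
theorem res (C : Core 𝒜 br) (V : ValuationSubring K) (hV : ∀ c : ℂ, algebraMap ℂ K c ∈ V)
    (c : Cu 𝒜 K 2) {l : K} (hl : Speed br c l) {N : K} (hN : 1 < V.valuation N)
    (hf : ∀ r i, V.valuation ((c.f r).coeff i) ≤ V.valuation N ^ i)
    (hg : ∀ r i, V.valuation ((c.g r).coeff i) ≤ V.valuation N ^ i)
    (hat : ∃ k, 0 < k ∧ ∃ a ∈ 𝒜 k, V.valuation ((c.f a).coeff k) = V.valuation N ^ k) :
    V.valuation l * V.valuation N ≤ 1 := sorry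

/-- N5 -/
theorem node [IsAlgClosed K] (C : Core 𝒜 br) (hfree : Free 𝒜) (V : ValuationSubring K)
    (hV : ∀ c : ℂ, algebraMap ℂ K c ∈ V) (c : Cu 𝒜 K 2) {l : K} (hl : Speed br c l)
    (hz : NZ 𝒜 V fun r => (c.f r).coeff 0) (hy : NZ 𝒜 V fun r => (c.g r).coeff 0) :
    l ∈ V ∧ ∀ r, l * (c.g r).coeff 1 ∈ V := sorry

/-- V1 -/
theorem val_dk [IsAlgClosed K] (C : Core 𝒜 br) (hfree : Free 𝒜) (V : ValuationSubring K)
    (hV : ∀ c : ℂ, algebraMap ℂ K c ∈ V) (c : Cu 𝒜 K 2) {l : K} (hl : Speed br c l)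
    (hz : NZ 𝒜 V fun r => (c.f r).coeff 0) (hy : NZ 𝒜 V fun r => (c.g r).coeff 0)
    (D : Derivation ℂ K K) (h0 : ∀ r, D ((c.f r).coeff 0) = 0)
    (h1 : ∀ r, D ((c.g r).coeff 0) ∈ V) : D (l ^ 2) ∈ V := sorry

end N

section V

variable {K : Type} [Field K] [Algebra ℂ K]

/-- V3a. A chart determines a curve. -/
theorem exists_rev {m : ℕ} (C : Core 𝒜 br) (g : R →ₐ[ℂ] K[X])
    (hdeg : ∀ k, ∀ a ∈ 𝒜 k, (g a).natDegree ≤ m * k) (hg : EN 𝒜 g)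
    (htop : ∃ k, 0 < k ∧ ∃ a ∈ 𝒜 k, (g a).coeff (m * k) ≠ 0) : ∃ c : Cu 𝒜 K m, c.g = g := sorry

/-- V2 -/
theorem exists_cscale (C : Core 𝒜 br) (c : Cu 𝒜 K 2) {l : K} (hl : Speed br c l) {s : K}
    (hs : s ≠ 0) : ∃ c' : Cu 𝒜 K 2, Speed br c' (s * l) ∧
      (∀ r, (c'.f r).coeff 0 = (c.f r).coeff 0) ∧
      ∀ k, ∀ a ∈ 𝒜 k, (c'.g a).coeff 0 = s ^ (2 * k) * (c.g a).coeff 0 := sorry

/-- V3 -/
theorem exists_translate (C : Core 𝒜 br) (c : Cu 𝒜 K 2) {l : K} (hl : Speed br c l) (s : K) :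
    ∃ c' : Cu 𝒜 K 2, Speed br c' l ∧ (∀ r, c'.g r = (c.g r).comp (X + Polynomial.C s)) ∧
      ∀ r, (c'.f r).coeff 0 = (c.f r).coeff 0 := sorry

/-- V4 -/
theorem exists_map {K' : Type} [Field K'] [Algebra ℂ K'] (C : Core 𝒜 br) (c : Cu 𝒜 K 2) {l : K}
    (hl : Speed br c l) (φ : K →ₐ[ℂ] K') : ∃ c' : Cu 𝒜 K' 2, Speed br c' (φ l) ∧
      (∀ r, c'.f r = (c.f r).map (φ : K →+* K')) ∧ ∀ r, c'.g r = (c.g r).map (φ : K →+* K') := sorry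

end V

section L

/-- L1. Along a line the derivative of the square of the speed is constant. -/
theorem lin_field (C : Core 𝒜 br) (hfree : Free 𝒜) {K₀ K : Type} [Field K₀] [Algebra ℂ K₀]
    [Field K] [Algebra ℂ K] [IsAlgClosed K] (j : K₀ →ₐ[ℂ] K) (D : Derivation ℂ K K)
    (hj : ∀ a, D (j a) = 0) {lam : K} (hlam : D lam = 1) (c : Cu 𝒜 K 2) {l : K}
    (hl : Speed br c l) (e : Cu 𝒜 K₀ 1) (z : R →ₐ[ℂ] ℂ) (hzv : ¬ IsVertex 𝒜 z)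
    (hz : ∀ r, (c.f r).coeff 0 = algebraMap ℂ K (z r))
    (hy : ∀ r, (c.g r).coeff 0 = (e.f r).eval₂ (j : K₀ →+* K) lam) : D (D (l ^ 2)) = 0 := sorry

/-- AM -/
theorem amalgam [IsDomain R] {Kc Om : Type} [Field Kc] [Algebra ℂ Kc] [Field Om] [Algebra ℂ Om]
    (x : R →ₐ[ℂ] Kc) (hx : Function.Injective x) (y : R →ₐ[ℂ] Om) (hy : Function.Injective y)
    (P : R[X]) (hP : P.Monic) (hirr : Irreducible (P.map (algebraMap R (FractionRing R))))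
    {κ : Kc} (hκ : P.eval₂ (x : R →+* Kc) κ = 0) {ρ : Om} (hρ : P.eval₂ (y : R →+* Om) ρ = 0)
    (D : Derivation ℂ Om Om) :
    ∃ (K' : Type) (_ : Field K') (_ : Algebra ℂ K') (_ : IsAlgClosed K') (φ : Kc →ₐ[ℂ] K')
      (i : Om →ₐ[ℂ] K') (D' : Derivation ℂ K' K'), (∀ r, φ (x r) = i (y r)) ∧ φ κ = i ρ ∧
        ∀ a, D' (i a) = i (D a) := sorry

/-- KER -/
theorem exists_dlam (K₀ : Type) [Field K₀] [Algebra ℂ K₀] [IsAlgClosed K₀] :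
    ∃ D : Derivation ℂ (AlgebraicClosure (FractionRing K₀[X])) (AlgebraicClosure
      (FractionRing K₀[X])), (∀ p : K₀[X], D (algebraMap K₀[X] _ p) =
        algebraMap K₀[X] _ (derivative p)) ∧
      ∀ ρ, D ρ = 0 → ∃ a : K₀, algebraMap K₀[X] _ (C a) = ρ := sorry

/-- DE -/
theorem exists_der [IsDomain R] {K : Type} [Field K] [Algebra ℂ K] {x : R →ₐ[ℂ] K}
    (hx : Function.Injective x) (δ : R →ₗ[ℂ] K) (hδ : IsDer x δ) :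
    ∃ D : Derivation ℂ K K, ∀ r, D (x r) = δ r := sorry

/-- L2 -/
theorem roots_line (C : Core 𝒜 br) (hfree : Free 𝒜) [IsDomain R] {Kc : Type} [Field Kc]
    [Algebra ℂ Kc] [IsAlgClosed Kc] (c : Cu 𝒜 Kc 2) {l : Kc} (hl : Speed br c l)
    (z : R →ₐ[ℂ] ℂ) (hzv : ¬ IsVertex 𝒜 z) (hz : ∀ r, (c.f r).coeff 0 = algebraMap ℂ Kc (z r))
    (hinj : Function.Injective c.p1) (P : R[X]) (hP : P.Monic)
    (hirr : Irreducible (P.map (algebraMap R (FractionRing R))))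
    (hroot : P.eval₂ (c.p1 : R →+* Kc) (l ^ 2) = 0) {K₀ : Type} [Field K₀] [Algebra ℂ K₀]
    [IsAlgClosed K₀] (e : Cu 𝒜 K₀ 1) (he : Function.Injective e.f)
    (ρ : AlgebraicClosure (FractionRing K₀[X]))
    (hρ : P.eval₂ ((algebraMap K₀[X] (AlgebraicClosure (FractionRing K₀[X]))).comp
      (e.f : R →+* K₀[X])) ρ = 0) : ∃ p : K₀[X], algebraMap K₀[X] _ p = ρ := sorry

/-- L3 -/
theorem roots_vert (C : Core 𝒜 br) [IsDomain R] {Kc : Type} [Field Kc]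
    [Algebra ℂ Kc] [IsAlgClosed Kc] (c : Cu 𝒜 Kc 2) {l : Kc} (hl : Speed br c l)
    (z : R →ₐ[ℂ] ℂ) (hzv : ¬ IsVertex 𝒜 z) (hz : ∀ r, (c.f r).coeff 0 = algebraMap ℂ Kc (z r))
    (hinj : Function.Injective c.p1) (P : R[X]) (hP : P.Monic)
    (hirr : Irreducible (P.map (algebraMap R (FractionRing R))))
    (hroot : P.eval₂ (c.p1 : R →+* Kc) (l ^ 2) = 0) {K₀ : Type} [Field K₀] [Algebra ℂ K₀]
    [IsAlgClosed K₀] (y₀ : R →ₐ[ℂ] K₀) (f : R →ₐ[ℂ] K₀[X])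
    (hf : ∀ k, ∀ a ∈ 𝒜 k, f a = Polynomial.C (y₀ a) * (1 + X) ^ k)
    (hfinj : Function.Injective f)
    (ρ : AlgebraicClosure (FractionRing K₀[X]))
    (hρ : P.eval₂ ((algebraMap K₀[X] (AlgebraicClosure (FractionRing K₀[X]))).comp
      (f : R →+* K₀[X])) ρ = 0) : ∃ p : K₀[X], algebraMap K₀[X] _ p = ρ := sorry

/-- L4 -/
theorem exists_minpoly (C : Core 𝒜 br) (hfree : Free 𝒜) [IsDomain R] [IsIntegrallyClosed R]
    {Kc : Type} [Field Kc] [Algebra ℂ Kc] [IsAlgClosed Kc] (c : Cu 𝒜 Kc 2) {l : Kc}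
    (hl : Speed br c l) (z : R →ₐ[ℂ] ℂ) (hzv : ¬ IsVertex 𝒜 z)
    (hz : ∀ r, (c.f r).coeff 0 = algebraMap ℂ Kc (z r)) (hinj : Function.Injective c.p1) :
    ∃ P : R[X], P.Monic ∧ Irreducible (P.map (algebraMap R (FractionRing R))) ∧
      P.eval₂ (c.p1 : R →+* Kc) (l ^ 2) = 0 := sorry

end L

/-- U1. Pure commutative algebra. -/
theorem unr (S : Type) [CommRing S] [IsDomain S] [IsIntegrallyClosed S] [Algebra ℂ S]
    (hfg : Algebra.FiniteType ℂ S) (hsc : SimplyConnected S) (P : S[X]) (hP : P.Monic)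
    (hirr : Irreducible (P.map (algebraMap S (FractionRing S))))
    (h : ∀ 𝔭 : Ideal S, 𝔭.IsPrime → 𝔭.height = 1 → ∃ (K₀ : Type) (_ : Field K₀) (_ : Algebra ℂ K₀)
      (_ : IsAlgClosed K₀) (f : S →ₐ[ℂ] K₀[X]), Function.Injective f ∧
      (∀ a, (f a).coeff 0 = 0 ↔ a ∈ 𝔭) ∧ (∃ a ∈ 𝔭, (f a).coeff 1 ≠ 0) ∧
      ∀ ρ : AlgebraicClosure (FractionRing K₀[X]),
        P.eval₂ ((algebraMap K₀[X] (AlgebraicClosure (FractionRing K₀[X]))).comp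
          (f : S →+* K₀[X])) ρ = 0 → ∃ p : K₀[X], algebraMap K₀[X] _ p = ρ) :
    P.natDegree = 1 := sorry

section F

variable {K : Type} [Field K] [Algebra ℂ K]

/-- F0 -/
theorem ham [IsDomain R] (C : Core 𝒜 br) (c : Cu 𝒜 K 2) {l : K} (hl : Speed br c l)
    (z : R →ₐ[ℂ] ℂ) (hz : ∀ r, (c.f r).coeff 0 = algebraMap ℂ K (z r))
    (hinj : Function.Injective c.p1) {κ : R} (hκ : c.p1 κ = l ^ 2) (r : R) :
    c.p1 (br κ r) = -l * (c.g r).coeff 1 := sorry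

/-- E1 -/
theorem deg_one [IsDomain R] (C : Core 𝒜 br) (c : Cu 𝒜 K 2) {l : K} (hl : Speed br c l)
    (z : R →ₐ[ℂ] ℂ) (hz : ∀ r, (c.f r).coeff 0 = algebraMap ℂ K (z r))
    (hinj : Function.Injective c.p1) {κ : R} (hκ : c.p1 κ = l ^ 2) : κ ∈ 𝒜 1 := sorry

/-- NL -/
theorem speed_ne_zero [IsDomain R] (C : Core 𝒜 br) (c : Cu 𝒜 K 2) {l : K} (hl : Speed br c l)
    (z : R →ₐ[ℂ] ℂ) (hzv : ¬ IsVertex 𝒜 z) (hz : ∀ r, (c.f r).coeff 0 = algebraMap ℂ K (z r))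
    (hinj : Function.Injective c.p1) : l ≠ 0 := sorry

end F

end Pool.Agent.Helper58.LC.Spec
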